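import Pool.Agent.COS.Stmts

set_option autoImplicit false

namespace Pool.Agent.COS.H20

open Pool.Agent.COS

/-- two elements which agree at the pivots before `k` agree before `k` -/
private theorem agr {N : ℕ} {W : Set (Fin N → Bool)} {y z : Fin N → Bool} (hy : y ∈ W)
    (hz : z ∈ W) {k : Fin N} (h : ∀ j < k, Pvt W j → y j = z j) : ∀ j < k, y j = z j := by
  have key : ∀ n : ℕ, ∀ j : Fin N, j.1 = n → j < k → y j = z j := by
    intro n
    induction n using Nat.strong_induction_on with
    | _ n ih =>
      intro j hj hjk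
      by_contra hne
      refine hne (h j hjk ⟨y, hy, z, hz, fun i hi => ?_, hne⟩)
      exact ih i.1 (hj ▸ (Fin.lt_def.mp hi)) i rfl (hi.trans hjk)
  exact fun j hj => key j.1 j rfl hj

private theorem agr' {N : ℕ} {W : Set (Fin N → Bool)} {y z : Fin N → Bool} (hy : y ∈ W)
    (hz : z ∈ W) (h : ∀ j, Pvt W j → y j = z j) : y = z := by
  funext j
  by_cases hp : Pvt W j
  · exact h j hp
  · by_contra hne
    exact hp ⟨y, hy, z, hz, agr hy hz (fun i _ => h i), hne⟩

private theorem surj {N : ℕ} {W : Set (Fin N → Bool)} (hW : Homog W) (hne : W.Nonempty)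
    (b : Fin N → Bool) : ∃ y ∈ W, ∀ k, Pvt W k → y k = b k := by
  have key : ∀ m : ℕ, ∃ y ∈ W, ∀ k : Fin N, k.1 < m → Pvt W k → y k = b k := by
    intro m
    induction m with
    | zero =>
      obtain ⟨y, hy⟩ := hne
      exact ⟨y, hy, fun k hk => absurd hk (Nat.not_lt_zero _)⟩
    | succ m ih =>
      obtain ⟨y, hy, h⟩ := ih
      by_cases hm : m < N
      · by_cases hp : Pvt W ⟨m, hm⟩
        · by_cases he : y ⟨m, hm⟩ = b ⟨m, hm⟩
          · refine ⟨y, hy, fun k hk hk' => ?_⟩
            rcases Nat.lt_succ_iff_lt_or_eq.mp hk with h1 | h1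
            · exact h k h1 hk'
            · rw [show k = ⟨m, hm⟩ from Fin.ext h1]; exact he
          · obtain ⟨z, hz, h1, h2⟩ := hW _ hp y hy
            refine ⟨z, hz, fun k hk hk' => ?_⟩
            rcases Nat.lt_succ_iff_lt_or_eq.mp hk with h3 | h3
            · rw [← h1 k (Fin.lt_def.mpr h3)]
              exact h k h3 hk'
            · rw [show k = ⟨m, hm⟩ from Fin.ext h3]
              cases hyb : y ⟨m, hm⟩ <;> cases hzb : z ⟨m, hm⟩ <;> cases hbb : b ⟨m, hm⟩ <;>
                simp_all
        · refine ⟨y, hy, fun k hk hk' => ?_⟩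
          rcases Nat.lt_succ_iff_lt_or_eq.mp hk with h1 | h1
          · exact h k h1 hk'
          · rw [show k = ⟨m, hm⟩ from Fin.ext h1] at hk'
            exact absurd hk' hp
      · refine ⟨y, hy, fun k _ hk' => h k (by have := k.2; omega) hk'⟩
  obtain ⟨y, hy, h⟩ := key N
  exact ⟨y, hy, fun k hk => h k k.2 hk⟩

theorem frm : FrmStmt := by
  classical
  intro N W hW hne
  choose r hrW hr using surj hW hne
  have hru : ∀ (b z : Fin N → Bool), z ∈ W → (∀ k, Pvt W k → z k = b k) → r b = z := by
    intro b z hz h
    exact agr' (hrW b) hz (fun k hk => (hr b k hk).trans (h k hk).symm)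
  -- the pivots
  have hQP : ∀ f : Fr N, IsFrame W f → ∀ i, f.1 i = true → Pvt W i := by
    intro f hf i hi
    refine ⟨f.2.2.1 i, (hf.row i hi).1, f.2.2.2 i, (hf.row i hi).2, hf.pre i hi, ?_⟩
    rw [(hf.one i hi).1, (hf.one i hi).2]
    decide
  obtain ⟨f0, hf0⟩ : ∃ f0 : Fr N, f0 = (fun i => decide (Pvt W i), r (fun _ => false),
    (fun i => if Pvt W i then r (fun j => decide (j = i)) else fun _ => false),
    (fun i => if Pvt W i then r (fun _ => false) else fun _ => false)) := ⟨_, rfl⟩
  have h0 : IsFrame W f0 := by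
    rw [hf0]
    constructor
    · exact hrW _
    · intro i hi
      exact hr _ i (of_decide_eq_true hi)
    · intro i hi
      have hp : Pvt W i := of_decide_eq_true hi
      simp only [if_pos hp]
      exact ⟨hrW _, hrW _⟩
    · intro i hi
      have hp : Pvt W i := of_decide_eq_true hi
      simp only [if_pos hp]
      exact ⟨(hr _ i hp).trans (by simp), hr _ i hp⟩
    · intro i hi
      have hp : Pvt W i := of_decide_eq_true hi
      simp only [if_pos hp]
      apply agr (hrW _) (hrW _)
      intro j hj hj'
      rw [hr _ j hj', hr _ j hj']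
      simp [hj.ne]
    · intro i hi j hji hj
      have hp : Pvt W i := of_decide_eq_true hi
      have hp' : Pvt W j := of_decide_eq_true hj
      simp only [if_pos hp]
      exact ⟨(hr _ j hp').trans (by simp [hji]), hr _ j hp'⟩
    · intro i hi j
      have hp : ¬ Pvt W i := of_decide_eq_false hi
      simp only [if_neg hp]
      exact ⟨trivial, trivial⟩
  have huniq : ∀ f : Fr N, IsFrame W f → (∀ i, Pvt W i → f.1 i = true) → f = f0 := by
    intro f hf hP
    rw [hf0]
    refine Prod.ext ?_ (Prod.ext ?_ (Prod.ext ?_ ?_))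
    · funext i
      change f.1 i = decide (Pvt W i)
      by_cases hp : Pvt W i
      · rw [hP i hp, decide_eq_true hp]
      · rw [decide_eq_false hp]
        by_contra hc
        exact hp (hQP f hf i (by simpa using hc))
    · change f.2.1 = r (fun _ => false)
      exact (hru _ _ hf.mem (fun k hk => hf.zer k (hP k hk))).symm
    · funext i
      change f.2.2.1 i = if Pvt W i then r (fun j => decide (j = i)) else fun _ => false
      by_cases hp : Pvt W i
      · rw [if_pos hp]
        refine (hru _ _ (hf.row i (hP i hp)).1 (fun k hk => ?_)).symm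
        by_cases hki : k = i
        · subst hki
          rw [(hf.one k (hP k hp)).1]; simp
        · rw [(hf.red i (hP i hp) k hki (hP k hk)).1]; simp [hki]
      · rw [if_neg hp]
        have hfi : f.1 i = false := by
          by_contra hc
          exact hp (hQP f hf i (by simpa using hc))
        funext j
        exact (hf.out i hfi j).1
    · funext i
      change f.2.2.2 i = if Pvt W i then r (fun _ => false) else fun _ => false
      by_cases hp : Pvt W i
      · rw [if_pos hp]
        refine (hru _ _ (hf.row i (hP i hp)).2 (fun k hk => ?_)).symm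
        by_cases hki : k = i
        · subst hki
          rw [(hf.one k (hP k hp)).2]
        · rw [(hf.red i (hP i hp) k hki (hP k hk)).2]
      · rw [if_neg hp]
        have hfi : f.1 i = false := by
          by_contra hc
          exact hp (hQP f hf i (by simpa using hc))
        funext j
        exact (hf.out i hfi j).2
  -- the involution
  obtain ⟨kk, hkk⟩ : ∃ kk : (Fin N → Bool) → Option (Fin N),
      ∀ Q, (∃ k, Pvt W k ∧ Q k = false) → ∃ k, kk Q = some k ∧ Pvt W k ∧ Q k = false := by
    refine ⟨fun Q => if h : ∃ k, Pvt W k ∧ Q k = false then some h.choose else none, ?_⟩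
    intro Q hQ
    refine ⟨hQ.choose, ?_, hQ.choose_spec⟩
    simp only [dif_pos hQ]
  obtain ⟨g, hg⟩ : ∃ g : Fr N → Fr N, ∀ f, g f = (f.1, (match kk f.1 with
      | none => f.2.1
      | some k => r (Function.update f.2.1 k (!f.2.1 k))), f.2.2) := ⟨_, fun _ => rfl⟩
  obtain ⟨S, hS⟩ : ∃ S : Finset (Fr N), S = Finset.univ.filter (fun f => IsFrame W f ∧
      ∃ k, Pvt W k ∧ f.1 k = false) := ⟨_, rfl⟩
  have hS' : ∀ f, f ∈ S ↔ IsFrame W f ∧ ∃ k, Pvt W k ∧ f.1 k = false := by
    intro f
    rw [hS, Finset.mem_filter]
    exact and_iff_right (Finset.mem_univ _)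
  have hgS : ∀ f ∈ S, ∃ k, Pvt W k ∧ f.1 k = false ∧
      g f = (f.1, r (Function.update f.2.1 k (!f.2.1 k)), f.2.2) ∧ kk f.1 = some k := by
    intro f hf
    obtain ⟨k, h1, h2, h3⟩ := hkk f.1 ((hS' f).mp hf).2
    refine ⟨k, h2, h3, ?_, h1⟩
    rw [hg f, h1]
  have hgm : ∀ f ∈ S, g f ∈ S := by
    intro f hf
    obtain ⟨k, h1, h2, h3, h4⟩ := hgS f hf
    have hF := ((hS' f).mp hf).1
    rw [hS', h3]
    refine ⟨⟨hrW _, fun i hi => ?_, hF.row, hF.one, hF.pre, hF.red, hF.out⟩, k, h1, h2⟩
    have hik : i ≠ k := fun h => by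
      have hi' : f.1 i = true := hi
      rw [h, h2] at hi'
      exact absurd hi' (by decide)
    change r (Function.update f.2.1 k (!f.2.1 k)) i = false
    rw [hr _ i (hQP f hF i hi), Function.update_of_ne hik]
    exact hF.zer i hi
  have hcard : ((S.card : ℕ) : ZMod 2) = 0 := by
    have h1 := Finset.sum_involution (s := S) (f := fun _ => (1 : ZMod 2)) (fun f _ => g f)
      (fun _ _ => by decide)
      (fun f hf _ => by
        obtain ⟨k, h1, h2, h3, h4⟩ := hgS f hf
        rw [h3]
        intro he
        have h5 : r (Function.update f.2.1 k (!f.2.1 k)) = f.2.1 := congrArg (fun t => t.2.1) he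
        have h6 := congrFun h5 k
        rw [hr _ k h1, Function.update_self] at h6
        cases hb : f.2.1 k <;> simp [hb] at h6)
      (fun f hf => hgm f hf)
      (fun f hf => by
        obtain ⟨k, h1, h2, h3, h4⟩ := hgS f hf
        have h5 : g (g f) = ((g f).1, r (Function.update (g f).2.1 k (!(g f).2.1 k)), (g f).2.2) := by
          rw [hg (g f), show (g f).1 = f.1 from by rw [h3], h4]
        rw [h5, h3]
        refine Prod.ext rfl (Prod.ext ?_ rfl)
        change r (Function.update (r (Function.update f.2.1 k (!f.2.1 k))) k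
          (!(r (Function.update f.2.1 k (!f.2.1 k))) k)) = f.2.1
        refine hru _ _ ((hS' f).mp hf).1.mem (fun j hj => ?_)
        by_cases hjk : j = k
        · subst hjk
          rw [Function.update_self, hr _ j hj, Function.update_self, Bool.not_not]
        · rw [Function.update_of_ne hjk, hr _ j hj, Function.update_of_ne hjk])
    simpa using h1
  have hset : {f : Fr N | IsFrame W f} = ↑(insert f0 S) := by
    ext f
    rw [Finset.coe_insert, Set.mem_insert_iff, Finset.mem_coe, hS']
    constructor
    · intro hf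
      by_cases h : ∃ k, Pvt W k ∧ f.1 k = false
      · exact Or.inr ⟨hf, h⟩
      · refine Or.inl (huniq f hf (fun i hi => ?_))
        by_contra hc
        exact h ⟨i, hi, by simpa using hc⟩
    · rintro (rfl | h)
      · exact h0
      · exact h.1
  have hnot : f0 ∉ S := by
    rw [hS']
    rintro ⟨-, k, hk, hk'⟩
    rw [hf0] at hk'
    exact absurd hk (of_decide_eq_false hk')
  rw [hset, Set.ncard_coe_finset, Finset.card_insert_of_notMem hnot]
  have hev : Even S.card := by
    rw [← ZMod.natCast_eq_zero_iff_even]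
    exact hcard
  exact hev.add_one

end Pool.Agent.COS.H20
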